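import Mathlib
import Pool.Agent.Helper91.GU.Defs

set_option autoImplicit false

/-!
# Project ET (MP_b1e6de_al): unimodular rows in characteristic p become completable over finite
etale covers of degree prime to p

THEOREM.  Let `2 ≤ r < p`, `q = p^e`, `e ≥ 1`, `q^(r+1) = 1` modulo `r!`, `A` a commutative ring with `p = 0`, `v` a
unimodular row of length `r + 1` over `A`.  There is a finite etale `A`-algebra `B` of constant rank
`(q^2-1)(q^3-1)...(q^r-1)` such that `v` is the first row of a matrix of determinant `1` over `B`.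

IDEA.  By project FU (G4) there is an invertible `g` with `v g = v^(q)` (entrywise powers).  The rows `x` with
`x^(q) = x g` form a finite etale scheme (Lang, Katz, Lange-Stuhler).  Step by step one adjoins a row that is
fixed modulo the rows found before.

`fr q M` is the entrywise `q`-th power.  In a ring with `p = 0`, `q = p^e`, the map `a ↦ a^q` is a ring
homomorphism (`add_pow_char_pow` or `iterateFrobenius`; use `ExpChar` or `CharP` carefully: the ring may be trivial,
so it may be better to prove `(a + b)^q = a^q + b^q` from `(p : A) = 0`: if `A` is nontrivial it is `CharP A p`,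
otherwise everything is equal by `Subsingleton`).  So `fr q (M * N) = fr q M * fr q N` etc.
-/

noncomputable section

namespace Pool.Agent.Helper93.ET

open MvPolynomial Matrix

/-- entrywise powers -/
def fr {m n A : Type} [CommRing A] (q : ℕ) (M : Matrix m n A) : Matrix m n A := M.map (· ^ q)

/-- relations `x_j = ∑ x_i^q F_ij` -/
def relF {A : Type} [CommRing A] {n : ℕ} (q : ℕ) (F : Matrix (Fin n) (Fin n) A) :
    Ideal (MvPolynomial (Fin n) A) :=
  Ideal.span (Set.range fun j => X j - ∑ i, C (F i j) * X i ^ q)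

/-- the algebra of the rows `x` with `x = x^(q) F` -/
abbrev EF {A : Type} [CommRing A] {n : ℕ} (q : ℕ) (F : Matrix (Fin n) (Fin n) A) : Type :=
  MvPolynomial (Fin n) A ⧸ relF q F

/-- relations `x_j^q = ∑ x_i G_ij` -/
def relG {A : Type} [CommRing A] {n : ℕ} (q : ℕ) (G : Matrix (Fin n) (Fin n) A) :
    Ideal (MvPolynomial (Fin n) A) :=
  Ideal.span (Set.range fun j => X j ^ q - ∑ i, C (G i j) * X i)

/-- the algebra of the rows `x` with `x^(q) = x G` -/
abbrev EG {A : Type} [CommRing A] {n : ℕ} (q : ℕ) (G : Matrix (Fin n) (Fin n) A) : Type :=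
  MvPolynomial (Fin n) A ⧸ relG q G

/-- The data of a step: `k` rows `V` with right inverse `W`, `V^(q) = T V g`. -/
structure Dat (A : Type) [CommRing A] (n q k : ℕ) where
  /-- rows -/
  V : Matrix (Fin k) (Fin n) A
  /-- right inverse -/
  W : Matrix (Fin n) (Fin k) A
  /-- the Frobenius matrix -/
  g : Matrix (Fin n) (Fin n) A
  /-- inverse of g -/
  gi : Matrix (Fin n) (Fin n) A
  /-- correction -/
  T : Matrix (Fin k) (Fin k) A
  /-- inverse of T -/
  Ti : Matrix (Fin k) (Fin k) A
  VW : V * W = 1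
  ggi : g * gi = 1
  gig : gi * g = 1
  TTi : T * Ti = 1
  TiT : Ti * T = 1
  frV : fr q V = T * V * g

namespace Dat

variable {A : Type} [CommRing A] {n q k : ℕ} (D : Dat A n q k)

/-- the projector to the complement of the rows of V -/
def e : Matrix (Fin n) (Fin n) A := 1 - D.W * D.V

/-- Frobenius matrix of the complement -/
def F : Matrix (Fin n) (Fin n) A := D.gi * D.e

/-- its inverse on the complement -/
def G : Matrix (Fin n) (Fin n) A := D.g * fr q D.e

/-- the extension by the standard Frobenius of the span of `V` -/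
def H : Matrix (Fin n) (Fin n) A := D.G + D.W * fr q D.V

end Dat

/-- MAT. Matrix identities.  PROOF. `e W = W - W (V W) = 0`, `V e = 0`, `e e = e`, `F e = F`.  With `φ = fr q`
(multiplicative, additive, `φ 1 = 1`): `φe = 1 - φW φV`, `φV φW = 1`, `φV φe = 0`, `φe φW = 0`.
`g φe gi e = e - g φW φV gi e` and `φV gi e = T V g gi e = T V e = 0`, so `G F = g φe gi e = e`.
`F G = gi e g φe = φe - gi W V g φe` and `V g = Ti φV`, so `V g φe = 0`; `F G = φe`.  `V G = V g φe = 0`,
`G φW = g φe φW = 0`, `F W = gi e W = 0`, `G φe = G`. `H φW = G φW + W φV φW = W`, `H φe F = G φe F + W φV φe F = G F = e`. -/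
def StMAT : Prop :=
  ∀ (A : Type) [CommRing A] (p a n k : ℕ), p.Prime → (p : A) = 0 → ∀ D : Dat A n (p ^ a) k,
    D.e * D.e = D.e ∧ D.V * D.e = 0 ∧ D.e * D.W = 0 ∧ D.F * D.e = D.F ∧ D.F * D.W = 0 ∧
    D.G * D.F = D.e ∧ D.F * D.G = fr (p ^ a) D.e ∧ D.G * fr (p ^ a) D.e = D.G ∧
    D.G * fr (p ^ a) D.W = 0 ∧ D.V * D.G = 0 ∧ D.H * fr (p ^ a) D.W = D.W ∧
    D.H * fr (p ^ a) D.e * D.F = D.e

/-- BAS. Monomial basis.  PROOF. No hypothesis on the characteristic.  Let `u_j = X_j^q - ∑ C (G i j) X_i`.
Let `Φ : MvPolynomial → MvPolynomial` be the linear map that sends the monomial `X^(qβ+α)` (`α_j < q`; division with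
remainder of every exponent) to `u^β X^α`.  `Φ - id` lowers the total degree (the difference
`u^β X^α - X^(qβ+α)` has total degree `< q|β| + |α|`, as `q ≥ 2 > 1`), so `Φ` is injective (look at a monomial of
the highest total degree) and surjective (induction on the total degree).  The image of the span of the
monomials with `β ≠ 0` is the ideal `(u_1, .., u_n)`: the `u^β X^α` span everything, so the ideal is spanned by
the `u_j u^β X^α`.  So the quotient has the basis `X^α`.  (Alternative: any other proof, e.g. only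
`Module.Free` and `Module.finrank = q ^ n` through one variable at a time over a suitable filtration.) -/
def StBAS : Prop :=
  ∀ (A : Type) [CommRing A] (n q : ℕ), 2 ≤ q → ∀ G : Matrix (Fin n) (Fin n) A,
    Nonempty (Module.Basis (Fin n → Fin q) A (EG q G))

/-- ETA. Etale.  PROOF. Finite presentation: quotient of a polynomial ring in finitely many variables by a finitely
generated ideal.  Formally etale by `Algebra.FormallyEtale.iff_comp_bijective`: homomorphisms `EF q F → B` are the rows
`x ∈ B^n` with `x = x^(q) F`.  If `I ^ 2 = ⊥` and `x' ≡ x` modulo `I` then `x'^(q) = x^(q)` (`(x + t)^q = x^q + t^q`,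
`t^q = 0` as `q ≥ 2`; `p = 0` in `B`).  So a solution `x̄` modulo `I` has the unique lift
`x'^(q) F`, `x'` any lift of `x̄`. -/
def StETA : Prop :=
  ∀ (A : Type) [CommRing A] (p a n : ℕ), p.Prime → (p : A) = 0 → 1 ≤ a →
    ∀ F : Matrix (Fin n) (Fin n) A, Algebra.Etale A (EF (p ^ a) F)

/-- ISO. Comparison.  PROOF. Let `q = p^a`.  Maps of algebras: `EG q H → EF q F ⊗ EG q 1`, `x ↦ y + c V` (`y` the row of the
variables of `EF`, `c` the row of the variables of `EG q 1`), and back `y ↦ x e`, `c ↦ x W`.  Well defined (MAT, and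
`F φe`-type identities): `x := y + cV`: `x^(q) = y^(q) + c φV` and `x H = y G + y W φV + c V G + c V W φV = y^(q) + c φV`,
since `y W = y^(q) F W = 0`, `V G = 0`, `V W = 1`, `y = y e` (`F e = F`), `y G = y^(q) F G = y^(q) φe = (y e)^(q) = y^(q)`.
Back: `(x W)^(q) = x^(q) φW = x H φW = x W`; `(x e)^(q) F = x^(q) φe F = x H φe F = x e`.  Compositions:
`x e + x W V = x`; `(y + c V) e = y`, `(y + c V) W = c`. -/
def StISO : Prop :=
  ∀ (A : Type) [CommRing A] (p a n k : ℕ), p.Prime → (p : A) = 0 → ∀ D : Dat A n (p ^ a) k,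
    Nonempty (EG (p ^ a) D.H ≃ₐ[A] TensorProduct A (EF (p ^ a) D.F)
      (EG (p ^ a) (1 : Matrix (Fin k) (Fin k) A)))

/-- IDM. Removing the zero section.  PROOF. Let `E = EF q F`, `𝔞` the ideal of `E` generated by the classes of the
variables.  `x_j = ∑ F_ij x_i^q ∈ 𝔞^2`, so `𝔞 = 𝔞^2` is finitely generated, hence generated by an idempotent `ε`
(`Ideal.isIdempotentElem_iff_of_fg`).  `B = E ⧸ (1 - ε)`.  The map `E → A × B` (`x ↦ (0, x)`) is an isomorphism of
algebras: `E ⧸ 𝔞 = A` and `𝔞 + (1 - ε) = 1`, `𝔞 ∩ (1 - ε) = 0`.  In `B` the images of the variables generate the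
unit ideal (`ε = 1` in `B`). -/
def StIDM : Prop :=
  ∀ (A : Type) [CommRing A] (n q : ℕ), 2 ≤ q → ∀ F : Matrix (Fin n) (Fin n) A,
    ∃ (B : Type) (_ : CommRing B) (_ : Algebra A B) (x : Fin n → B),
      Nonempty (EF q F ≃ₐ[A] A × B) ∧ Ideal.span (Set.range x) = ⊤ ∧
      ∀ j, x j = ∑ i, algebraMap A B (F i j) * x i ^ q

/-- STEP. One step.  PROOF. Let `q = p^a ≥ 2`, `B`, `x` from IDM for `D.F`.  `EF q F` is etale (ETA) and `A × B ≃ EF q F`, so
`B` is etale (a factor, e.g. `Algebra.Etale` of a product or localization at the idempotent `(0,1)`, or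
`B` is the localization of `A × B` away from `(0,1)`).  By ISO and BAS: `EF q F ⊗ EG q 1 ≃ EG q H`,
`EG q 1` is free with basis of size `q^k`, `EG q H` free with basis of size `q^n`: so
`(Fin (q^k) → A × B) ≃ₗ (Fin (q^n) → A)`.  `B` is a finite module (image of a finite one).
The new data: `V'` = `V` (mapped to `B`) with the last row `x`, `g` mapped.  `x = x^(q) F` gives `x = x e` (`F e = F`) and `x W = 0`.  As
`(x) = 1` there is a column `y` with `x y = 1`; `y' = e y`: `V y' = 0`, `x y' = 1`; `W'` = `W` with the last column `y'`.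
`μ = x^(q) gi W`: `x^(q) gi = x^(q) gi (e + W V) = x + μ V`, so `x^(q) = (x + μ V) g`; `T' = [[T,0],[μ,1]]`,
`Ti' = [[Ti,0],[-μ Ti, 1]]`. -/
def StSTEP : Prop :=
  ∀ (A : Type) [CommRing A] (p a n k : ℕ), p.Prime → (p : A) = 0 → 1 ≤ a → ∀ D : Dat A n (p ^ a) k,
    ∃ (B : Type) (_ : CommRing B) (_ : Algebra A B) (D' : Dat B n (p ^ a) (k + 1)),
      Algebra.Etale A B ∧ Module.Finite A B ∧
      Nonempty ((Fin ((p ^ a) ^ k) → A × B) ≃ₗ[A] (Fin ((p ^ a) ^ n) → A)) ∧
      (∀ i j, D'.V i.castSucc j = algebraMap A B (D.V i j))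

/-- RNK. Ranks in towers.  PROOF. `rankAtStalk` over `A0` of both sides of the isomorphism (restricted to `A0`-linear):
`m (rk A + rk B) = M rk A` (`Module.rankAtStalk_pi`, `rankAtStalk_prod`, `rankAtStalk_eq_of_equiv`; all modules are finite and flat over `A0`). -/
def StRNK : Prop :=
  ∀ (A0 A B : Type) [CommRing A0] [CommRing A] [CommRing B] [Algebra A0 A] [Algebra A B]
    [Algebra A0 B] [IsScalarTower A0 A B] [Module.Finite A0 A] [Module.Flat A0 A]
    [Module.Finite A0 B] [Module.Flat A0 B] (m M : ℕ),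
    Nonempty ((Fin m → A × B) ≃ₗ[A] (Fin M → A)) → ∀ x : PrimeSpectrum A0,
      m * (Module.rankAtStalk (R := A0) A x + Module.rankAtStalk (R := A0) B x) =
        M * Module.rankAtStalk (R := A0) A x

/-- IND. The tower.  PROOF. Induction on `l`; `l = 0`: `B = A` (etale over itself, rank 1).  Step: STEP for the data over `B`
gives `B'` etale and finite over `B`, so over `A` (`Algebra.Etale.comp`, `Module.Finite.trans`; define the `A`-algebra
structure of `B'` by composition); flatness: etale algebras are flat (`Algebra.Smooth.flat`).  RNK with `m = q^(k+l)`, `M = q^n`: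
`q^(k+l) (R + R') = q^n R`, so `R' = (q^(n-k-l) - 1) R` (`k + l < n`). -/
def StIND : Prop :=
  ∀ (A : Type) [CommRing A] (p a n k : ℕ), p.Prime → (p : A) = 0 → 1 ≤ a → ∀ D : Dat A n (p ^ a) k,
    ∀ l : ℕ, k + l ≤ n →
    ∃ (B : Type) (_ : CommRing B) (_ : Algebra A B) (D' : Dat B n (p ^ a) (k + l)),
      Algebra.Etale A B ∧ Module.Finite A B ∧
      (∀ x : PrimeSpectrum A, Module.rankAtStalk (R := A) B x =
        ∏ i ∈ Finset.range l, ((p ^ a) ^ (n - k - i) - 1)) ∧
      (∀ (i : Fin k) (j : Fin n), D'.V (Fin.castAdd l i) j = algebraMap A B (D.V i j))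

/-- CMP. The last row.  PROOF. Let `V` be `m × (m+1)`, `V W = 1`.  For a row `t` let `δ(t)` be the determinant of the square matrix with
rows `V` and last row `t`; it is linear in `t`: `δ(t) = t c` with a column `c`.  `V c = 0` (equal rows).  For a column `s`
let `δ'(s) = c' s` be the determinant of the matrix with columns `W` and last column `s`; `c' W = 0`.
The product of the two matrices is `[[1, V s],[t W, t s]]` with determinant `t s - t W V s = t e s`, `e = 1 - W V`.  So
`t e s = (t c)(c' s)` for all `t, s`: `e = c c'`.  The trace of `e` is `(m + 1) - m = 1` (`trace (W V) = trace (V W) = m`), so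
`c' c = 1`.  So the matrix with rows `V` and last row `c'` has determinant `δ(c') = c' c = 1`. -/
def StCMP : Prop :=
  ∀ (A : Type) [CommRing A] (m : ℕ) (V : Matrix (Fin m) (Fin (m + 1)) A)
    (W : Matrix (Fin (m + 1)) (Fin m) A), V * W = 1 →
    ∃ M : Matrix (Fin (m + 1)) (Fin (m + 1)) A, M.det = 1 ∧ ∀ i j, M i.castSucc j = V i j

/-- POW. Frobenius on rows.  PROOF. This is the landed theorem `aG4` of project FU (`Pool/Agent/Helper75/FU/All.lean`, import
it; `Um`, `REq` are those of `Pool.Agent.Helper91.GU`), with the index type `Unit ⊕ Fin r`, `r = s + 1`, moved to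
`Fin (r + 1)` (`finSumFinEquiv`-like equivalence with `inl () ↦ 0`, `inr j ↦ j.succ`).  `REq v w`: there is an invertible `g` with `vecMul v g = w`. -/
def StPOW : Prop :=
  ∀ (A : Type) [CommRing A] (r q : ℕ), 2 ≤ r → q ^ (r + 1) ≡ 1 [MOD r.factorial] →
    ∀ v : Fin (r + 1) → A, Ideal.span (Set.range v) = ⊤ →
    ∃ g : Matrix (Fin (r + 1)) (Fin (r + 1)) A, IsUnit g.det ∧ Matrix.vecMul v g = fun j => v j ^ q

/-- FIN. The theorem.  PROOF. `g` from POW, `gi` its inverse; `w` with `v w = 1`; data `D` with `n = r + 1`, `k = 1`, `V` the row `v`, `W` the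
column `w`, `T = 1`.  IND with `l = r - 1` (`k + l = r`): `B`, rank
`∏_{i < r-1} (q^(r-i) - 1) = ∏_{i=2}^{r} (q^i - 1)` (reflect the product), and an `r × (r+1)` matrix with right inverse and first row `v`
(`Fin.castAdd l 0 = 0`; cast the index `1 + (r-1) = r`).  CMP with `m = r`. -/
def StFIN : Prop :=
  ∀ (A : Type) [CommRing A] (p a r : ℕ), p.Prime → (p : A) = 0 → 1 ≤ a → 2 ≤ r →
    (p ^ a) ^ (r + 1) ≡ 1 [MOD r.factorial] →
    ∀ v : Fin (r + 1) → A, Ideal.span (Set.range v) = ⊤ →
    ∃ (B : Type) (_ : CommRing B) (_ : Algebra A B),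
      Algebra.Etale A B ∧ Module.Finite A B ∧
      (∀ x : PrimeSpectrum A, Module.rankAtStalk (R := A) B x =
        ∏ i ∈ Finset.Icc 2 r, ((p ^ a) ^ i - 1)) ∧
      ∃ M : Matrix (Fin (r + 1)) (Fin (r + 1)) B, M.det = 1 ∧ ∀ j, M 0 j = algebraMap A B (v j)

end Pool.Agent.Helper93.ET
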